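import Pool.Agent.W425.MM.Defs

/-!
# Project MM, part A6: existence of a simplex in the lower hull
-/

set_option autoImplicit false

namespace Pool.Agent.W398.MM.A6

open Pool.Agent.W425.MM Pool.Agent.W426.SM

section
variable {r N : ℕ} (v : Fin r → Fin N → ℕ) (a : Fin N → ℕ)

/-- pairing -/
def dot (u : Fin N → ℚ) (j : Fin r) : ℚ := ∑ i, u i * (v j i : ℚ)

/-- height -/
def ht (j : Fin r) : ℚ := ∑ i, (if a i = 0 then (v j i : ℚ) else 0)

lemma ht_nonneg (j : Fin r) : 0 ≤ ht v a j := by
  unfold ht
  refine Finset.sum_nonneg fun i _ => ?_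
  split_ifs <;> positivity

lemma dot_add (u w : Fin N → ℚ) (t : ℚ) (j : Fin r) :
    dot v (fun i => u i + t * w i) j = dot v u j + t * dot v w j := by
  unfold dot
  rw [Finset.mul_sum, ← Finset.sum_add_distrib]
  refine Finset.sum_congr rfl fun i _ => by ring

lemma dot_neg (u : Fin N → ℚ) (j : Fin r) : dot v (fun i => -u i) j = -dot v u j := by
  unfold dot
  rw [← Finset.sum_neg_distrib]
  refine Finset.sum_congr rfl fun i _ => by ring

lemma face_nonempty (hr : 0 < r) : ∃ j, face v a j := by
  have : Nonempty (Fin r) := ⟨⟨0, hr⟩⟩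
  obtain ⟨j, hj⟩ := exists_eq_ciInf_of_finite (f := fun j => ∑ i, a i * v j i)
  exact ⟨j, hj⟩

variable {v a}

lemma claim1 (hr : 0 < r) (hray : IsRay v a) (hg : 0 < gord v a) (u : Fin N → ℚ)
    (hu : ∀ i, a i = 0 → u i = 0) (h : ∀ j, face v a j → dot v u j = 0) : u = 0 := by
  obtain ⟨ρ, hρ⟩ := hray.2 u hu (fun j j' hj hj' => by
    have h1 := h j hj
    have h2 := h j' hj'
    unfold dot at h1 h2
    rw [h1, h2])
  obtain ⟨j, hj⟩ := face_nonempty v a hr
  have h1 := h j hj
  unfold dot at h1
  have h2 : ∑ i, u i * (v j i : ℚ) = ρ * (gord v a : ℚ) := by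
    have hj' : ∑ i, a i * v j i = gord v a := hj
    rw [← hj']
    push_cast
    rw [Finset.mul_sum]
    refine Finset.sum_congr rfl fun i _ => ?_
    rw [hρ i]
    ring
  rw [h2] at h1
  have hg' : (gord v a : ℚ) ≠ 0 := by exact_mod_cast hg.ne'
  have hρ0 : ρ = 0 := (mul_eq_zero.1 h1).resolve_right hg'
  funext i
  rw [hρ i, hρ0, zero_mul]
  rfl

/-- tight indices -/
noncomputable def tight (v : Fin r → Fin N → ℕ) (a : Fin N → ℕ) (u : Fin N → ℚ) :
    Finset (Fin r) :=
  open Classical in Finset.univ.filter fun l => face v a l ∧ dot v u l = ht v a l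

lemma step (hr : 0 < r) (hray : IsRay v a) (hg : 0 < gord v a) (u : Fin N → ℚ)
    (hu : ∀ i, a i = 0 → u i = 0) (hP : ∀ l, face v a l → dot v u l ≤ ht v a l)
    (w : Fin N → ℚ) (hw : ∀ i, a i = 0 → w i = 0)
    (hwt : ∀ l, face v a l → dot v u l = ht v a l → dot v w l = 0) (hw0 : w ≠ 0) :
    ∃ u' : Fin N → ℚ, (∀ i, a i = 0 → u' i = 0) ∧
      (∀ l, face v a l → dot v u' l ≤ ht v a l) ∧ (tight v a u).card < (tight v a u').card := by
  classical
  -- wlog there is `l` with positive pairing
  obtain ⟨w, hw, hwt, l1, hl1, hpos⟩ : ∃ w : Fin N → ℚ, (∀ i, a i = 0 → w i = 0) ∧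
      (∀ l, face v a l → dot v u l = ht v a l → dot v w l = 0) ∧
      ∃ l, face v a l ∧ 0 < dot v w l := by
    have : ∃ l, face v a l ∧ dot v w l ≠ 0 := by
      by_contra hcon
      push Not at hcon
      exact hw0 (claim1 hr hray hg w hw hcon)
    obtain ⟨l, hl, hne⟩ := this
    rcases lt_or_gt_of_ne hne with h | h
    · refine ⟨fun i => -w i, fun i hi => by show -w i = 0; rw [hw i hi, neg_zero], ?_, l, hl, ?_⟩
      · intro l hl ht
        rw [dot_neg, hwt l hl ht, neg_zero]
      · rw [dot_neg]; linarith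
    · exact ⟨w, hw, hwt, l, hl, h⟩
  let Lp : Finset (Fin r) := Finset.univ.filter fun l => face v a l ∧ 0 < dot v w l
  have hLp : Lp.Nonempty := ⟨l1, by simp [Lp, hl1, hpos]⟩
  obtain ⟨l0, hl0, hmin⟩ := Lp.exists_min_image (fun l => (ht v a l - dot v u l) / dot v w l) hLp
  have hl0' : face v a l0 ∧ 0 < dot v w l0 := by simpa [Lp] using hl0
  set t : ℚ := (ht v a l0 - dot v u l0) / dot v w l0 with ht_def
  have ht0 : 0 ≤ t := by
    rw [ht_def]
    exact div_nonneg (by have := hP l0 hl0'.1; linarith) hl0'.2.le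
  refine ⟨fun i => u i + t * w i, fun i hi => by
    show u i + t * w i = 0
    rw [hu i hi, hw i hi]; ring, ?_, ?_⟩
  · intro l hl
    rw [dot_add]
    rcases le_or_gt (dot v w l) 0 with h | h
    · have := hP l hl
      nlinarith
    · have h1 : t ≤ (ht v a l - dot v u l) / dot v w l := hmin l (by simp [Lp, hl, h])
      rw [le_div_iff₀ h] at h1
      linarith
  · apply Finset.card_lt_card
    rw [Finset.ssubset_iff_of_subset]
    · refine ⟨l0, ?_, ?_⟩
      · simp only [tight, Finset.mem_filter, Finset.mem_univ, true_and]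
        refine ⟨hl0'.1, ?_⟩
        rw [dot_add, ht_def, div_mul_cancel₀ _ hl0'.2.ne']
        ring
      · simp only [tight, Finset.mem_filter, Finset.mem_univ, true_and, not_and]
        intro _ h
        have := hwt l0 hl0'.1 h
        exact hl0'.2.ne' this
    · intro l hl
      simp only [tight, Finset.mem_filter, Finset.mem_univ, true_and] at hl ⊢
      refine ⟨hl.1, ?_⟩
      rw [dot_add, hwt l hl.1 hl.2, mul_zero, add_zero]
      exact hl.2

lemma claim2 (hr : 0 < r) (hray : IsRay v a) (hg : 0 < gord v a) :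
    ∃ u : Fin N → ℚ, (∀ i, a i = 0 → u i = 0) ∧ (∀ l, face v a l → dot v u l ≤ ht v a l) ∧
      ∀ w : Fin N → ℚ, (∀ i, a i = 0 → w i = 0) →
        (∀ l, face v a l → dot v u l = ht v a l → dot v w l = 0) → w = 0 := by
  have key : ∀ n : ℕ, ∀ u : Fin N → ℚ, (∀ i, a i = 0 → u i = 0) →
      (∀ l, face v a l → dot v u l ≤ ht v a l) → r ≤ (tight v a u).card + n →
      ∃ u : Fin N → ℚ, (∀ i, a i = 0 → u i = 0) ∧ (∀ l, face v a l → dot v u l ≤ ht v a l) ∧
      ∀ w : Fin N → ℚ, (∀ i, a i = 0 → w i = 0) →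
        (∀ l, face v a l → dot v u l = ht v a l → dot v w l = 0) → w = 0 := by
    intro n
    induction n with
    | zero =>
      intro u hu hP hc
      refine ⟨u, hu, hP, fun w hw hwt => ?_⟩
      by_contra hw0
      obtain ⟨u', -, -, h3⟩ := step hr hray hg u hu hP w hw hwt hw0
      have h4 : (tight v a u').card ≤ r := by
        have := Finset.card_le_univ (tight v a u')
        rwa [Fintype.card_fin] at this
      omega
    | succ n ih =>
      intro u hu hP hc
      by_cases hgood : ∀ w : Fin N → ℚ, (∀ i, a i = 0 → w i = 0) →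
        (∀ l, face v a l → dot v u l = ht v a l → dot v w l = 0) → w = 0
      · exact ⟨u, hu, hP, hgood⟩
      · push Not at hgood
        obtain ⟨w, hw, hwt, hw0⟩ := hgood
        obtain ⟨u', h1, h2, h3⟩ := step hr hray hg u hu hP w hw hwt hw0
        exact ih u' h1 h2 (by omega)
  refine key r (fun _ => 0) (fun _ _ => rfl) (fun l _ => ?_) (by omega)
  have : dot v (fun _ => 0) l = 0 := by simp [dot]
  rw [this]
  exact ht_nonneg v a l

end

open Classical in
theorem main : TaskA6 := by
  intro r N v loc hr hne a hray hg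
  obtain ⟨u, hu, hP, hgood⟩ := claim2 hr hray hg
  let W : Fin r → ({i // a i ≠ 0} → ℚ) := fun j i => (v j i : ℚ)
  obtain ⟨b, hbt, -, hspan, hli⟩ := exists_linearIndepOn_extension (K := ℚ) (v := W)
    (linearIndepOn_empty ℚ W) (Set.empty_subset {l | face v a l ∧ dot v u l = ht v a l})
  have htop : Submodule.span ℚ (W '' {l | face v a l ∧ dot v u l = ht v a l}) = ⊤ := by
    by_contra hlt
    obtain ⟨f, hf0, hf⟩ := Submodule.exists_le_ker_of_lt_top _ (lt_top_iff_ne_top.2 hlt)
    let w : Fin N → ℚ := fun i => if h : a i ≠ 0 then f (Pi.single ⟨i, h⟩ 1) else 0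
    have hfw : ∀ j, f (W j) = dot v w j := by
      intro j
      have h1 : W j = ∑ i : {i // a i ≠ 0}, (v j i : ℚ) • (Pi.single i (1 : ℚ) :
          {i // a i ≠ 0} → ℚ) := by
        funext i
        simp [W, Finset.sum_apply, Pi.single_apply]
      rw [h1, map_sum]
      unfold dot
      have h2 : ∑ i, w i * (v j i : ℚ) = ∑ i : {i // a i ≠ 0}, w i * (v j i : ℚ) := by
        rw [← Finset.sum_subtype (Finset.univ.filter fun i => a i ≠ 0) (by simp)
          (fun i => w i * (v j i : ℚ))]
        symm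
        refine Finset.sum_filter_of_ne fun i _ hne' => ?_
        intro h0
        apply hne'
        have : w i = 0 := by simp [w, h0]
        rw [this, zero_mul]
      rw [h2]
      refine Finset.sum_congr rfl fun i _ => ?_
      rw [map_smul, smul_eq_mul, mul_comm]
      congr 1
      simp only [w]
      rw [dif_pos i.2]
    have hw : w = 0 := by
      refine hgood w (fun i hi => by simp [w, hi]) ?_
      intro l hl ht
      rw [← hfw l]
      exact hf (Submodule.subset_span ⟨l, ⟨hl, ht⟩, rfl⟩)
    apply hf0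
    apply LinearMap.pi_ext'
    intro i
    ext
    have := congrFun hw i
    simp only [w] at this
    rw [dif_pos i.2] at this
    simpa using this
  have hspan' : Submodule.span ℚ (W '' b) = ⊤ := by
    rw [eq_top_iff, ← htop]
    exact Submodule.span_le.2 hspan
  have hcard : Fintype.card b = Fintype.card {i // a i ≠ 0} := by
    have h1 := finrank_span_eq_card hli
    have h2 : Set.range (fun x : b => W x) = W '' b := by
      ext x; simp
    rw [h2, hspan', finrank_top, Module.finrank_fintype_fun_eq_card] at h1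
    exact h1.symm
  refine ⟨b.toFinset, ?_, ?_, ?_, ?_, ?_⟩
  · rw [Set.toFinset_card, hcard, Fintype.card_subtype]
  · intro j hj
    exact (hbt (Set.mem_toFinset.1 hj)).1
  · have h3 : LinearIndependent ℚ (fun x : b => W x) := hli
    exact h3.comp (fun j : b.toFinset => (⟨j.1, Set.mem_toFinset.1 j.2⟩ : b))
      (fun x y hxy => by
        apply Subtype.ext
        exact congrArg (fun z : b => z.1) hxy)
  · rintro i - ⟨j0, -, h1, -⟩
    exact hne j0 i h1
  · intro _ l hl c hc hcl
    have h1 : ∑ j, c j * dot v u j = dot v u l := by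
      have h2 : dot v u l = ∑ i, u i * ∑ j, c j * (v j i : ℚ) := by
        unfold dot
        refine Finset.sum_congr rfl fun i _ => ?_
        by_cases hi : a i = 0
        · rw [hu i hi, zero_mul, zero_mul]
        · rw [hcl i hi]
      rw [h2]
      unfold dot
      simp_rw [Finset.mul_sum]
      rw [Finset.sum_comm]
      refine Finset.sum_congr rfl fun i _ => Finset.sum_congr rfl fun j _ => by ring
    have h3 : ∑ j, c j * ∑ i, (if a i = 0 then (v j i : ℚ) else 0) = ∑ j, c j * dot v u j := by
      refine Finset.sum_congr rfl fun j _ => ?_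
      by_cases hj : j ∈ b
      · have := (hbt hj).2
        rw [this]
        rfl
      · rw [hc j (fun h => hj (Set.mem_toFinset.1 h)), zero_mul, zero_mul]
    rw [h3, h1]
    exact hP l hl

end Pool.Agent.W398.MM.A6
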